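import Pool.Agent.Helper80.HG.St

/-!
# Project HG, module CM: commutators in small actions

The displacement of a commutator is the difference of two differences, each estimated by the mean value theorem.
-/

set_option autoImplicit false

namespace Pool.Agent.Helper40.HG

open Pool.Agent.Helper80.HG Filter Topology Asymptotics
open scoped commutatorElement

/-- Every constant times `exp (-Λ) Λ ^ 2` is small near infinity. -/
theorem ev_small {Λ : ℝ → ℝ} (hΛ : Tendsto Λ atTop atTop) (C : ℝ) :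
    ∀ᶠ z in atTop, C * Real.exp (-Λ z) * Λ z ^ 2 ≤ 1 / 2 := by
  have h1 : Tendsto (fun z => C * (Λ z ^ 2 * Real.exp (-Λ z))) atTop (𝓝 (C * 0)) :=
    ((Real.tendsto_pow_mul_exp_neg_atTop_nhds_zero 2).comp hΛ).const_mul C
  rw [mul_zero] at h1
  filter_upwards [h1.eventually (gt_mem_nhds (show (0 : ℝ) < 1 / 2 by norm_num))] with z hz
  have e : C * Real.exp (-Λ z) * Λ z ^ 2 = C * (Λ z ^ 2 * Real.exp (-Λ z)) := by ring
  rw [e]
  exact hz.le

/-- Every constant times `exp (-Λ)` is small near infinity. -/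
theorem ev_one {Λ : ℝ → ℝ} (hΛ : Tendsto Λ atTop atTop) (C : ℝ) :
    ∀ᶠ z in atTop, C * Real.exp (-Λ z) ≤ 1 := by
  have h1 : Tendsto (fun z => C * Real.exp (-Λ z)) atTop (𝓝 (C * 0)) :=
    ((Real.tendsto_exp_neg_atTop_nhds_zero).comp hΛ).const_mul C
  rw [mul_zero] at h1
  filter_upwards [h1.eventually (gt_mem_nhds (show (0 : ℝ) < 1 by norm_num))] with z hz
  exact hz.le

/-- The bracket `f (z + g z) - f z`. -/
theorem bracket (hLN : StLN) (hDP : StDP) {H : Set (ℝ → ℝ)} (hB : Bas H) {Λ : ℝ → ℝ}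
    (hΛH : Λ ∈ H) (hΛ : Tendsto Λ atTop atTop) {δ : ℝ} (h0 : 0 < δ) (h1 : δ < 1)
    {f g : ℝ → ℝ} (hf : f ∈ H) (hf0 : Tendsto f atTop (𝓝 0)) {C : ℝ} (hC : 0 ≤ C)
    (hfC : ∀ᶠ z in atTop, |f z| ≤ C * Real.exp (-Λ z))
    (hgC : ∀ᶠ z in atTop, |g z| ≤ C * Real.exp (-Λ z)) :
    ∀ᶠ z in atTop, |f (z + g z) - f z| ≤
      (C * Real.exp 1) ^ (1 - δ) * C * Real.exp (-((2 - δ) * Λ z)) := by
  obtain ⟨f', -, hf'⟩ := hB.deriv f hf
  have hpow := hDP H hB f hf hf0 f' hf' δ h0 h1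
  obtain ⟨M₀, hM₀⟩ := hLN H hB Λ hΛH hΛ
  obtain ⟨M₁, hM₁⟩ := eventually_atTop.1 (hf'.and (hpow.and hfC))
  filter_upwards [hgC, ev_small hΛ C, ev_one hΛ C, eventually_ge_atTop (max M₀ M₁ + 1)]
    with z hz1 hz2 hz3 hz4
  have hzM0 : M₀ ≤ z := by
    have := le_max_left M₀ M₁
    linarith
  set E := Real.exp (-Λ z) with hE
  have hE0 : 0 < E := Real.exp_pos _
  have hg1 : |g z| ≤ 1 := hz1.trans hz3
  -- all points between
  have hbd : ∀ ξ ∈ Set.uIcc z (z + g z), M₁ ≤ ξ ∧ ‖f' ξ‖ ≤ (C * Real.exp 1) ^ (1 - δ) *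
      Real.exp (-((1 - δ) * Λ z)) := by
    intro ξ hξ
    have hd : |ξ - z| ≤ |g z| := by
      have h2 := Set.abs_sub_left_of_mem_uIcc hξ
      simpa using h2
    have hd1 : -1 ≤ ξ - z := by
      have := (abs_le.1 (hd.trans hg1)).1
      linarith
    have hξ0 : M₀ ≤ ξ := by
      have := le_max_left M₀ M₁
      linarith
    have hξ1 : M₁ ≤ ξ := by
      have := le_max_right M₀ M₁
      linarith
    refine ⟨hξ1, ?_⟩
    have hs : |ξ - z| * Λ z ^ 2 ≤ 1 / 2 := by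
      calc |ξ - z| * Λ z ^ 2 ≤ (C * E) * Λ z ^ 2 :=
            mul_le_mul_of_nonneg_right (hd.trans hz1) (sq_nonneg _)
        _ ≤ 1 / 2 := hz2
    have hL := hM₀ z ξ hzM0 hξ0 hs
    have hL' : Λ z - 1 ≤ Λ ξ := by
      have := (abs_le.1 hL).1
      linarith
    obtain ⟨-, h3, h4⟩ := hM₁ ξ hξ1
    have h5 : |f ξ| ≤ C * Real.exp 1 * E := by
      calc |f ξ| ≤ C * Real.exp (-Λ ξ) := h4
        _ ≤ C * Real.exp (1 + -Λ z) :=
          mul_le_mul_of_nonneg_left (Real.exp_le_exp.2 (by linarith)) hC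
        _ = C * Real.exp 1 * E := by rw [Real.exp_add, hE]; ring
    calc ‖f' ξ‖ = |f' ξ| := Real.norm_eq_abs _
      _ ≤ |f ξ| ^ (1 - δ) := h3
      _ ≤ (C * Real.exp 1 * E) ^ (1 - δ) :=
        Real.rpow_le_rpow (abs_nonneg _) h5 (by linarith)
      _ = (C * Real.exp 1) ^ (1 - δ) * E ^ (1 - δ) :=
        Real.mul_rpow (by positivity) hE0.le
      _ = (C * Real.exp 1) ^ (1 - δ) * Real.exp (-((1 - δ) * Λ z)) := by
        rw [hE, ← Real.exp_mul]
        congr 2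
        ring
  have hmv := (convex_uIcc z (z + g z)).norm_image_sub_le_of_norm_hasDerivWithin_le
    (f := f) (f' := f') (fun ξ hξ => ((hM₁ ξ (hbd ξ hξ).1).1).hasDerivWithinAt)
    (fun ξ hξ => (hbd ξ hξ).2) Set.left_mem_uIcc Set.right_mem_uIcc
  have e1 : z + g z - z = g z := by ring
  rw [e1, Real.norm_eq_abs, Real.norm_eq_abs] at hmv
  calc |f (z + g z) - f z| ≤ (C * Real.exp 1) ^ (1 - δ) * Real.exp (-((1 - δ) * Λ z)) * |g z| :=
        hmv
    _ ≤ (C * Real.exp 1) ^ (1 - δ) * Real.exp (-((1 - δ) * Λ z)) * (C * E) :=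
        mul_le_mul_of_nonneg_left hz1 (by positivity)
    _ = (C * Real.exp 1) ^ (1 - δ) * C * (Real.exp (-((1 - δ) * Λ z)) * E) := by ring
    _ = (C * Real.exp 1) ^ (1 - δ) * C * Real.exp (-((2 - δ) * Λ z)) := by
        rw [hE, ← Real.exp_add]
        congr 2
        ring

/-- MODULE CM. -/
theorem hCM : StCM := by
  intro hLN hDP H hB Γ _ θ hS Λ hΛH hΛ δ h0 h1 x y hx hy
  -- a common constant
  obtain ⟨C1, hC1⟩ := hx.bound
  obtain ⟨C2, hC2⟩ := hy.bound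
  set C := max (max C1 C2) 0 with hCd
  have hC : 0 ≤ C := le_max_right _ _
  have hC1C : C1 ≤ C := (le_max_left _ _).trans (le_max_left _ _)
  have hC2C : C2 ≤ C := (le_max_right _ _).trans (le_max_left _ _)
  have hxC : ∀ᶠ z in atTop, |dsp θ x z| ≤ C * Real.exp (-Λ z) := by
    filter_upwards [hC1] with z hz
    rw [Real.norm_eq_abs, Real.norm_eq_abs, abs_of_pos (Real.exp_pos _)] at hz
    exact hz.trans (mul_le_mul_of_nonneg_right hC1C (Real.exp_pos _).le)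
  have hyC : ∀ᶠ z in atTop, |dsp θ y z| ≤ C * Real.exp (-Λ z) := by
    filter_upwards [hC2] with z hz
    rw [Real.norm_eq_abs, Real.norm_eq_abs, abs_of_pos (Real.exp_pos _)] at hz
    exact hz.trans (mul_le_mul_of_nonneg_right hC2C (Real.exp_pos _).le)
  set D := (C * Real.exp 1) ^ (1 - δ) * C with hD
  have hD0 : 0 ≤ D := by positivity
  have b1 := bracket hLN hDP hB hΛH hΛ h0 h1 (hS.dmem x) (hS.sml x) hC hxC hyC
  have b2 := bracket hLN hDP hB hΛH hΛ h0 h1 (hS.dmem y) (hS.sml y) hC hyC hxC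
  obtain ⟨M₀, hM₀⟩ := hLN H hB Λ hΛH hΛ
  refine IsBigO.of_bound (2 * D * Real.exp 2) ?_
  refine hS.trans (y * x) (fun w => ‖dsp θ ⁅x, y⁆ w‖ ≤
    2 * D * Real.exp 2 * ‖Real.exp (-((2 - δ) * Λ w))‖) ?_
  have hw : ∀ᶠ z in atTop, M₀ ≤ θ (y * x) z := (hS.top (y * x)).eventually_ge_atTop M₀
  filter_upwards [b1, b2, hxC, hyC, hS.mul ⁅x, y⁆ (y * x), hS.mul y x, hS.mul x y, hw,
    eventually_ge_atTop M₀, ev_small hΛ (2 * C + D), hΛ.eventually_ge_atTop 0]
    with z hb1 hb2 hz1 hz2 hm1 hm2 hm3 hz3 hz4 hz5 hz6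
  have e0 : ⁅x, y⁆ * (y * x) = x * y := by
    rw [commutatorElement_def]
    group
  rw [e0, hm3] at hm1
  have ex : θ x z = z + dsp θ x z := by unfold dsp; ring
  have ey : θ y z = z + dsp θ y z := by unfold dsp; ring
  have e1 : dsp θ ⁅x, y⁆ (θ (y * x) z) = (dsp θ x (z + dsp θ y z) - dsp θ x z) -
      (dsp θ y (z + dsp θ x z) - dsp θ y z) := by
    have e2 : dsp θ ⁅x, y⁆ (θ (y * x) z) = θ x (θ y z) - θ y (θ x z) := by
      unfold dsp
      rw [← hm1, hm2]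
    have e3 : θ x (θ y z) = θ y z + dsp θ x (θ y z) := by unfold dsp; ring
    have e4 : θ y (θ x z) = θ x z + dsp θ y (θ x z) := by unfold dsp; ring
    rw [e2, e3, e4, ← ex, ← ey]
    linarith
  have hbound : |dsp θ ⁅x, y⁆ (θ (y * x) z)| ≤ 2 * D * Real.exp (-((2 - δ) * Λ z)) := by
    rw [e1]
    calc |(dsp θ x (z + dsp θ y z) - dsp θ x z) - (dsp θ y (z + dsp θ x z) - dsp θ y z)|
        ≤ |dsp θ x (z + dsp θ y z) - dsp θ x z| + |dsp θ y (z + dsp θ x z) - dsp θ y z| :=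
          abs_sub _ _
      _ ≤ D * Real.exp (-((2 - δ) * Λ z)) + D * Real.exp (-((2 - δ) * Λ z)) := add_le_add hb1 hb2
      _ = 2 * D * Real.exp (-((2 - δ) * Λ z)) := by ring
  -- comparison of the two base points
  have hwz : |θ (y * x) z - z| ≤ (2 * C + D) * Real.exp (-Λ z) := by
    have e5 : θ (y * x) z - z = dsp θ x z + (dsp θ y z +
        (dsp θ y (z + dsp θ x z) - dsp θ y z)) := by
      have e4 : θ y (θ x z) = θ x z + dsp θ y (θ x z) := by unfold dsp; ring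
      rw [hm2, e4, ← ex]
      have : θ x z - z = dsp θ x z := rfl
      linarith
    have h6 : Real.exp (-((2 - δ) * Λ z)) ≤ Real.exp (-Λ z) := by
      refine Real.exp_le_exp.2 ?_
      nlinarith
    rw [e5]
    calc |dsp θ x z + (dsp θ y z + (dsp θ y (z + dsp θ x z) - dsp θ y z))|
        ≤ |dsp θ x z| + |dsp θ y z + (dsp θ y (z + dsp θ x z) - dsp θ y z)| := abs_add_le _ _
      _ ≤ |dsp θ x z| + (|dsp θ y z| + |dsp θ y (z + dsp θ x z) - dsp θ y z|) :=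
          add_le_add le_rfl (abs_add_le _ _)
      _ ≤ C * Real.exp (-Λ z) + (C * Real.exp (-Λ z) + D * Real.exp (-Λ z)) := by
          refine add_le_add hz1 (add_le_add hz2 (hb2.trans ?_))
          exact mul_le_mul_of_nonneg_left h6 hD0
      _ = (2 * C + D) * Real.exp (-Λ z) := by ring
  have hs : |θ (y * x) z - z| * Λ z ^ 2 ≤ 1 / 2 :=
    (mul_le_mul_of_nonneg_right hwz (sq_nonneg _)).trans hz5
  have hL := hM₀ z (θ (y * x) z) hz4 hz3 hs
  have hL' : Λ (θ (y * x) z) ≤ Λ z + 1 := by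
    have := (abs_le.1 hL).2
    linarith
  rw [Real.norm_eq_abs, Real.norm_eq_abs, abs_of_pos (Real.exp_pos _)]
  calc |dsp θ ⁅x, y⁆ (θ (y * x) z)| ≤ 2 * D * Real.exp (-((2 - δ) * Λ z)) := hbound
    _ ≤ 2 * D * (Real.exp 2 * Real.exp (-((2 - δ) * Λ (θ (y * x) z)))) := by
        refine mul_le_mul_of_nonneg_left ?_ (by positivity)
        rw [← Real.exp_add]
        refine Real.exp_le_exp.2 ?_
        nlinarith
    _ = 2 * D * Real.exp 2 * Real.exp (-((2 - δ) * Λ (θ (y * x) z))) := by ring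

end Pool.Agent.Helper40.HG
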