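import Pool.Agent.Helper35.HG.StA

/-!
# Project HG, module CTS: the sum of the commutator terms
-/

set_option autoImplicit false

namespace Helper40.HG

open Helper35.HG Helper35.HC Helper35.HSF Helper35.MS Helper35.PI Helper35.PI2 Helper32.CL
open scoped BigOperators

theorem ip0_nonneg' {n : ℕ} (X : Fin n → Fin n → ℝ) : 0 ≤ ip0 X X :=
  Finset.sum_nonneg fun i _ => Finset.sum_nonneg fun j _ => mul_self_nonneg (tl X i j)

/-- the region for one unit normal -/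
theorem rg_bound {n N : ℕ} {p : Prf} {l r : ℝ} {A : Fin n → Fin n → EE N} {L : EE n →ₗᵢ[ℝ] EE N}
    {x₀ : EE N} (hr : 0 < r) (hl : 0 < l) (hR : RgA n p l A r L x₀) {x : ℝ}
    (hx : x = YY A / (n ^ 2 * r) - 1) (hT : 0 ≤ thA2 A) (he : 0 ≤ p.e x) {ν : EE N}
    (hν : UN L x₀ ν) {X : ℝ} (hX : X = (inner ℝ (Hv A) ν : ℝ) ^ 2 / (n ^ 2 * r)) :
    ∀ c d, OP c d → bil (kn A ν) c d ^ 2 + p.E / n * ip0 (kn A ν) (kn A ν)
      ≤ r * (l * (p.J X + p.P x)) := by
  intro c d hcd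
  have h := hR ν hν c d hcd
  rw [← hx, ← hX] at h
  have h1 : 0 ≤ l * (p.e x * (thA2 A / (n * r))) := by positivity
  have h2 : (bil (kn A ν) c d ^ 2 + p.E / n * ip0 (kn A ν) (kn A ν)) / r
      ≤ l * (p.J X + p.P x) := by linarith
  rw [div_le_iff₀ hr] at h2
  linarith [mul_comm (l * (p.J X + p.P x)) r]

theorem hCTS : StCTA → StCTB → StFRM → StFRL → StSQF → StSPX → StCTS := by
  intro hCTA hCTB hFRM hFRL hSQF _ n N k hN p hp A r L x₀ hA l hl hl1 hR x hx P Q ν hν hPQ hκ hmax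
    X hX
  have hn16 := hp.n16
  have hn2 : 2 ≤ n := by omega
  have hn1 : 1 ≤ n := by omega
  have hn0 : (0 : ℝ) < (n : ℝ) := by exact_mod_cast (by omega : 0 < n)
  have hr := hA.r0
  obtain ⟨e, hNF, hUN, he0, hej⟩ := (hFRM n N k hN hn1 A r L x₀ hA).1 ν hν
  obtain ⟨H, hH⟩ : ∃ H : Fin (k + 2) → Fin n → Fin n → ℝ, H = fun α => kn A (e α) := ⟨_, rfl⟩
  have hNF' := hNF
  rw [← hH] at hNF'
  have hHα : ∀ α, kn A (e α) = H α := fun α => by rw [hH]
  obtain ⟨-, hS2, hS3, hS4, -, -⟩ := hSQF n N (k + 2) hn1 A H r e x₀ hNF' _ _ rfl rfl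
  obtain ⟨m0, hm0⟩ : ∃ m0, m0 = mt (H 0) := ⟨_, rfl⟩
  obtain ⟨m1, hm1⟩ : ∃ m1, m1 = mt (H 1) := ⟨_, rfl⟩
  have hmj : ∀ j : Fin k, mt (H j.succ.succ) = 0 := by
    intro j
    have h := hS2 j.succ.succ
    rw [hej j] at h
    rcases mul_eq_zero.1 h.symm with h | h
    · exact absurd h hn0.ne'
    · exact h
  have hmm : ∑ α, mt (H α) ^ 2 = m0 ^ 2 + m1 ^ 2 := by
    rw [Fin.sum_univ_succ, Fin.sum_univ_succ]
    have : ∑ j : Fin k, mt (H j.succ.succ) ^ 2 = 0 :=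
      Finset.sum_eq_zero fun j _ => by rw [hmj j]; ring
    rw [this, hm0, hm1]
    simp
  rw [hmm] at hS3
  have hxr : x * r = m0 ^ 2 + m1 ^ 2 := by
    rw [hx, hS3]
    field_simp
    ring
  have hXr : X * r = m0 ^ 2 := by
    have h := hS2 0
    rw [he0] at h
    rw [hX, h, ← hm0]
    field_simp
  have hx0 : 0 ≤ x := by
    by_contra hc
    push Not at hc
    nlinarith [sq_nonneg m0, sq_nonneg m1]
  have hX0 : 0 ≤ X := by
    by_contra hc
    push Not at hc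
    nlinarith [sq_nonneg m0]
  have hxX : (x - X) * r = m1 ^ 2 := by linarith [sub_mul x X r]
  have hxX0 : 0 ≤ x - X := by
    by_contra hc
    push Not at hc
    nlinarith [sq_nonneg m1]
  have hT : 0 ≤ thA2 A := by
    rw [hS4]
    exact Finset.sum_nonneg fun α _ => ip0_nonneg' _
  have hex : 0 ≤ p.e x := hp.e0 x hx0
  have hV0 : 0 < p.J 0 + p.P x := hp.V0 0 x le_rfl hx0
  have hV1 : 0 < p.J (x - X) + p.P x := hp.V0 (x - X) x hxX0 (by linarith)
  obtain ⟨K, hK⟩ : ∃ K, K = kn A ν := ⟨_, rfl⟩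
  have hKH : K = H 0 := by rw [hK, ← he0, hHα]
  rw [← hK] at hκ hmax
  have hsy := hNF'.sy
  have hsK : SymS K := by rw [hKH]; exact hsy 0
  obtain ⟨κ, hκd⟩ : ∃ κ, κ = bil K P Q := ⟨_, rfl⟩
  -- one direction orthogonal to `ν` and to `H`
  have key0 : ∀ w : EE N, UN L x₀ w → (inner ℝ (Hv A) w : ℝ) = 0 → SymS (kn A w) →
      κ * QB K (kn A w) P Q + p.E / n * cq K (kn A w)
        ≤ 4 * κ ^ 2 * (r * (l * (p.J 0 + p.P x))) := by
    intro w hw hw0 hsw
    rw [hκd]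
    refine hCTA n hn2 K (kn A w) P Q p.E _ hsK hsw hPQ hp.E0.le hκ hmax ?_
    exact rg_bound hr hl hR hx hT hex hw (by rw [hw0]; simp)
  have key1 : κ * QB K (H 1) P Q + p.E / n * cq K (H 1)
        ≤ 4 * κ ^ 2 * (r * (l * (p.J (x - X) + p.P x))) := by
    rw [hκd, ← hHα 1]
    refine hCTA n hn2 K (kn A (e 1)) P Q p.E _ hsK (by rw [hHα]; exact hsy 1) hPQ hp.E0.le hκ hmax ?_
    refine rg_bound hr hl hR hx hT hex (hUN 1) ?_
    rw [hS2 1, ← hm1, eq_div_iff (by positivity)]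
    have : (x - X) * (n ^ 2 * r) = n ^ 2 * ((x - X) * r) := by ring
    rw [this, hxX]
    ring
  have key2 : 0 < X → κ * QB K (H 1) P Q + p.E / n * cq K (H 1)
        ≤ 4 * κ ^ 2 * (r * (l * (x * (p.J 0 + p.P x) / X))) := by
    intro hXp
    have hm0' : m0 ≠ 0 := by
      rintro h
      rw [h] at hXr
      have : 0 < X * r := by positivity
      nlinarith
    have hxp : 0 < x := by linarith
    obtain ⟨s, hs⟩ : ∃ s, s = Real.sqrt (x * r) := ⟨_, rfl⟩
    have hs2 : s ^ 2 = x * r := by rw [hs, Real.sq_sqrt (by positivity)]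
    have hs0 : 0 < s := by rw [hs]; exact Real.sqrt_pos.2 (by positivity)
    obtain ⟨a, ha⟩ : ∃ a : Fin (k + 2) → ℝ,
        a = Fin.cons (-m1 / s) (Fin.cons (m0 / s) (fun _ => 0)) := ⟨_, rfl⟩
    have ha0 : a 0 = -m1 / s := by rw [ha]; rfl
    have ha1 : a 1 = m0 / s := by rw [ha]; rfl
    have haj : ∀ j : Fin k, a j.succ.succ = 0 := fun j => by rw [ha]; rfl
    have hsum : ∀ f : Fin (k + 2) → ℝ, (∀ j : Fin k, f j.succ.succ = 0) →
        ∑ α, f α = f 0 + f 1 := by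
      intro f hf
      rw [Fin.sum_univ_succ, Fin.sum_univ_succ]
      have : ∑ j : Fin k, f j.succ.succ = 0 := Finset.sum_eq_zero fun j _ => hf j
      rw [this, add_zero]
      rfl
    obtain ⟨hF1, hF2, hF3, -, hF5⟩ := hFRL n N (k + 2) hn1 A H r L e x₀ hNF' hUN a
    have hu := hF5 (by
      rw [hsum (fun α => a α ^ 2) (fun j => by rw [haj]; ring), ha0, ha1, div_pow, div_pow,
        ← add_div, hs2, hxr, neg_sq, add_comm (m1 ^ 2)]
      exact div_self (by rw [← hxr]; positivity))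
    have hin : (inner ℝ (Hv A) (∑ α, a α • e α) : ℝ) = 0 := by
      rw [hF2, hsum (fun α => a α * mt (H α)) (fun j => by rw [haj]; ring), ha0, ha1, ← hm0, ← hm1]
      ring
    have hk := key0 _ hu hin (by rw [hF1]; exact hF3)
    rw [hF1] at hk
    have hB : H 1 = lc (m1 / m0) (s / m0) K (lin a H) := by
      funext i j
      have hl' : lin a H i j = -m1 / s * H 0 i j + m0 / s * H 1 i j := by
        unfold lin
        rw [hsum (fun α => a α * H α i j) (fun q => by rw [haj]; ring), ha0, ha1]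
      unfold lc
      rw [hl', hKH]
      field_simp
      ring
    obtain ⟨hb1, hb2⟩ := hCTB n hn2 K (lin a H) P Q hsK hF3 hPQ hκ hmax (m1 / m0) (s / m0)
    rw [hB, hb1, hb2]
    have hg : (s / m0) ^ 2 = x / X := by
      rw [div_pow, hs2, ← hXr]
      field_simp
    rw [hg]
    have hxX' : 0 ≤ x / X := by positivity
    calc κ * (x / X * QB K (lin a H) P Q) + p.E / n * (x / X * cq K (lin a H))
        = x / X * (κ * QB K (lin a H) P Q + p.E / n * cq K (lin a H)) := by ring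
      _ ≤ x / X * (4 * κ ^ 2 * (r * (l * (p.J 0 + p.P x)))) := mul_le_mul_of_nonneg_left hk hxX'
      _ = 4 * κ ^ 2 * (r * (l * (x * (p.J 0 + p.P x) / X))) := by ring
  -- choice of `S`
  obtain ⟨S, hS0, hS1, hSX, hSk⟩ : ∃ S : ℝ, 0 ≤ S ∧ S ≤ p.J (x - X) + p.P x ∧
      X * S ≤ x * (p.J 0 + p.P x) ∧
      κ * QB K (H 1) P Q + p.E / n * cq K (H 1) ≤ 4 * κ ^ 2 * (r * (l * S)) := by
    rcases hX0.eq_or_lt with h | h
    · refine ⟨p.J (x - X) + p.P x, hV1.le, le_rfl, ?_, key1⟩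
      rw [← h, zero_mul]
      positivity
    · refine ⟨min (p.J (x - X) + p.P x) (x * (p.J 0 + p.P x) / X),
        le_min hV1.le (by positivity), min_le_left _ _, ?_, ?_⟩
      · calc X * min (p.J (x - X) + p.P x) (x * (p.J 0 + p.P x) / X)
            ≤ X * (x * (p.J 0 + p.P x) / X) := mul_le_mul_of_nonneg_left (min_le_right _ _) hX0
          _ = x * (p.J 0 + p.P x) := by field_simp
      · rcases min_choice (p.J (x - X) + p.P x) (x * (p.J 0 + p.P x) / X) with h' | h'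
        · rw [h']; exact key1
        · rw [h']; exact key2 h
  refine ⟨e, S, hNF, hUN, he0, hS0, hS1, hSX, ?_⟩
  rw [← hK, ← hκd]
  have hcomb : κ * (∑ j : Fin (k + 1), QB K (kn A (e j.succ)) P Q)
        + p.E / n * (∑ j : Fin (k + 1), cq K (kn A (e j.succ)))
      = ∑ j : Fin (k + 1), (κ * QB K (kn A (e j.succ)) P Q
        + p.E / n * cq K (kn A (e j.succ))) := by
    rw [Finset.sum_add_distrib, Finset.mul_sum, Finset.mul_sum]
  rw [hcomb, Fin.sum_univ_succ]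
  have h1 : κ * QB K (kn A (e (Fin.succ 0))) P Q + p.E / n * cq K (kn A (e (Fin.succ 0)))
      ≤ 4 * κ ^ 2 * (r * (l * S)) := by
    have : (Fin.succ 0 : Fin (k + 2)) = 1 := rfl
    rw [this, hHα]
    exact hSk
  have h2 : ∑ j : Fin k, (κ * QB K (kn A (e j.succ.succ)) P Q
        + p.E / n * cq K (kn A (e j.succ.succ)))
      ≤ ∑ _j : Fin k, 4 * κ ^ 2 * (r * (l * (p.J 0 + p.P x))) :=
    Finset.sum_le_sum fun j _ => key0 _ (hUN _) (hej j) (by rw [hHα]; exact hsy _)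
  rw [Finset.sum_const, Finset.card_univ, Fintype.card_fin, nsmul_eq_mul] at h2
  calc _ ≤ 4 * κ ^ 2 * (r * (l * S)) + k * (4 * κ ^ 2 * (r * (l * (p.J 0 + p.P x)))) :=
        add_le_add h1 h2
    _ = 4 * κ ^ 2 * (r * (l * (k * (p.J 0 + p.P x) + S))) := by ring

end Helper40.HG
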